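import Pool.Agent.MP_e20151_nt.C00
import Pool.Agent.MP_e20151_nt.C01
import Pool.Agent.MP_e20151_nt.C02
import Pool.Agent.MP_e20151_nt.C03
import Pool.Agent.MP_e20151_nt.C04
import Pool.Agent.MP_e20151_nt.C05
import Pool.Agent.MP_e20151_nt.C06
import Pool.Agent.MP_e20151_nt.C07
import Pool.Agent.MP_e20151_nt.C08
import Pool.Agent.MP_e20151_nt.C09
import Pool.Agent.MP_e20151_nt.C10
import Pool.Agent.MP_e20151_nt.C11
import Pool.Agent.MP_e20151_nt.C12
import Pool.Agent.MP_e20151_nt.C13
import Pool.Agent.MP_e20151_nt.C14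
import Pool.Agent.MP_e20151_nt.C15
import Pool.Agent.MP_e20151_nt.C16
import Pool.Agent.MP_e20151_nt.C17
import Pool.Agent.MP_e20151_nt.C18
import Pool.Agent.MP_e20151_nt.C19
import Pool.Agent.MP_e20151_nt.C20
import Pool.Agent.MP_e20151_nt.C21
import Pool.Agent.MP_e20151_nt.C22
import Pool.Agent.MP_e20151_nt.C23

namespace Pool.Agent.MP_e20151_nt

theorem allSeg : Seg 16331 0 65324 :=
  C00.s3008
    |>.trans C01.s5952
    |>.trans C02.s8704
    |>.trans C03.s11584
    |>.trans C04.s14272
    |>.trans C05.s17216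
    |>.trans C06.s19840
    |>.trans C07.s22912
    |>.trans C08.s25728
    |>.trans C09.s28032
    |>.trans C10.s30784
    |>.trans C11.s33536
    |>.trans C12.s36224
    |>.trans C13.s38592
    |>.trans C14.s41344
    |>.trans C15.s43776
    |>.trans C16.s46592
    |>.trans C17.s49024
    |>.trans C18.s51968
    |>.trans C19.s54720
    |>.trans C20.s57344
    |>.trans C21.s60352
    |>.trans C22.s62592
    |>.trans C23.s65324

end Pool.Agent.MP_e20151_nt
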