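namespace Pool.Agent.MP_e20151_nt

/-- evaluate `x` to a numeral before passing it on -/
noncomputable def frc (x : Nat) (g : Nat → Bool) : Bool :=
  Nat.rec (motive := fun _ => Bool) false (fun p _ => g p) (Nat.succ x)

theorem frc_eq (x : Nat) (g : Nat → Bool) : frc x g = g x := rfl

/-- the number with index `i = 4 k + f` -/
noncomputable def val (n i : Nat) : Nat :=
  Bool.rec
    (Bool.rec (Nat.add (Nat.add (Nat.pow 2 n) (Nat.pow 2 (Nat.div i 4))) 1)
      (Nat.add (Nat.sub (Nat.pow 2 n) (Nat.pow 2 (Nat.div i 4))) 1) (Nat.beq (Nat.mod i 4) 2))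
    (Bool.rec (Nat.sub (Nat.add (Nat.pow 2 n) (Nat.pow 2 (Nat.div i 4))) 1)
      (Nat.sub (Nat.sub (Nat.pow 2 n) (Nat.pow 2 (Nat.div i 4))) 1) (Nat.beq (Nat.mod i 4) 0))
    (Nat.ble (Nat.mod i 4) 1)

/-- the divisor named by a code -/
noncomputable def dv (c : Nat) : Nat :=
  Bool.rec (Bool.rec (Nat.add (Nat.pow 2 (Nat.div c 4)) 1) (Nat.sub (Nat.pow 2 (Nat.div c 4)) 1)
    (Nat.beq (Nat.mod c 4) 0)) c (Nat.beq (Nat.mod c 2) 1)

/-- `d` is a proper divisor of `N` -/
noncomputable def fac (N d : Nat) : Bool :=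
  Bool.rec false (Bool.rec (Nat.beq (Nat.mod N d) 0) false (Nat.ble N d)) (Nat.ble 2 d)

/-- `c` modular squarings -/
noncomputable def itP (N c : Nat) : Nat → Nat :=
  Nat.rec (fun x => x) (fun _ ih x =>
    Nat.rec (motive := fun _ => Nat) 0 (fun p _ => ih (Nat.succ p)) (Nat.mod (Nat.pow x 2) N)) c

/-- `c` rounds of the map `g`, each value evaluated to a numeral; `g 0` is taken to be `0` -/
noncomputable def rounds (g : Nat → Nat) (c : Nat) : Nat → Nat :=
  Nat.rec (fun x => x) (fun _ ih x =>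
    Nat.rec (motive := fun _ => Nat) 0 (fun p _ => ih (Nat.succ p)) (g x)) c

/-- one modular squaring -/
noncomputable def sqm (N x : Nat) : Nat := Nat.mod (Nat.pow x 2) N

/-- eight applications of `g` -/
noncomputable def rep (g : Nat → Nat) (x : Nat) : Nat := g (g (g (g (g (g (g (g x)))))))

/-- `c` modular squarings, in blocks of 64 and 1024 -/
noncomputable def itQ (N c x : Nat) : Nat :=
  rounds (rounds (rep (rep (sqm N))) 16) (Nat.div c 1024)
    (rounds (rep (rep (sqm N))) (Nat.div (Nat.mod c 1024) 64) (itP N (Nat.mod c 64) x))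

/-- the comparison at the end of the Fermat test, `a = 3 ^ 2 ^ n`, `b = 3 ^ 2 ^ k` -/
noncomputable def fin (N f a b : Nat) : Bool :=
  Bool.rec false (not (Bool.rec
    (Bool.rec (Nat.beq (Nat.mod (Nat.mul a b) N) 1) (Nat.beq (Nat.mod a N) (Nat.mod b N)) (Nat.beq f 2))
    (Bool.rec (Nat.beq (Nat.mod (Nat.mul a b) N) 9) (Nat.beq (Nat.mod a N) (Nat.mod (Nat.mul 9 b) N))
      (Nat.beq f 0))
    (Nat.ble f 1))) (Nat.ble 10 N)

/-- Fermat test in base 3 fails for the number with index `i` -/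
noncomputable def fer (n i : Nat) : Bool :=
  frc (val n i) fun N => frc (Nat.div i 4) fun k => frc (Nat.sub n k) fun j =>
    frc (itQ N k 3) fun b => fin N (Nat.mod i 4) (itQ N j b) b

/-- check `m` codes of 64 bits each; code 0 takes the next index from the list -/
noncomputable def chk (n m : Nat) : Nat → Nat → List Nat → Bool :=
  Nat.rec (fun _ _ _ => true) (fun _ ih i W L =>
    frc (Nat.land W 18446744073709551615) fun c => frc (Nat.shiftRight W 64) fun W' => frc (Nat.succ i) fun i' =>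
      Bool.rec (Bool.rec false (ih i' W' L) (fac (val n i) (dv c)))
        (List.rec false (fun a L' _ => Bool.rec false (ih i' W' L') (Nat.beq a i)) L) (Nat.beq c 0)) m

def AllF (n : Nat) (L : List Nat) : Prop := ∀ i ∈ L, fer n i = true

theorem AllF.nil {n : Nat} : AllF n [] := fun _ h => nomatch h

theorem AllF.cons {n i : Nat} {L : List Nat} (h : fer n i = true) (t : AllF n L) : AllF n (i :: L) :=
  List.forall_mem_cons.2 ⟨h, t⟩

def Seg (n a b : Nat) : Prop :=
  ∀ i, a ≤ i → i < b → ∃ lo m W L, lo ≤ i ∧ i < lo + m ∧ chk n m lo W L = true ∧ AllF n L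

theorem Seg.one {n m lo W hi : Nat} {L : List Nat} (h : chk n m lo W L = true) (t : AllF n L)
    (e : Nat.beq (Nat.add lo m) hi = true) : Seg n lo hi := fun i h1 h2 =>
  ⟨lo, m, W, L, h1, by have := Nat.eq_of_beq_eq_true e; simp only [Nat.add_eq] at this; omega, h, t⟩

theorem Seg.trans {n a b c : Nat} (h : Seg n a b) (t : Seg n b c) : Seg n a c := fun i h1 h2 =>
  if hi : i < b then h i h1 hi else t i (by omega) h2

end Pool.Agent.MP_e20151_nt
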