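import Mathlib
import Pool.Agent.MP_e20151_nt.Defs

namespace Pool.Agent.MP_e20151_nt

theorem fac_sound {N d : ℕ} (h : fac N d = true) : ¬ N.Prime := by
  unfold fac at h
  cases h1 : Nat.ble 2 d with
  | false => simp [h1] at h
  | true =>
    cases h2 : Nat.ble N d with
    | true => simp [h1, h2] at h
    | false =>
      simp only [h1, h2] at h
      have h3 : N % d = 0 := Nat.eq_of_beq_eq_true h
      have h4 : 2 ≤ d := Nat.le_of_ble_eq_true h1
      have h5 : ¬ N ≤ d := fun hh => by rw [Nat.ble_eq_true_of_le hh] at h2; cases h2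
      intro hp
      rcases hp.eq_one_or_self_of_dvd d (Nat.dvd_of_mod_eq_zero h3) with h6 | h6 <;> omega

theorem itP_succ (N c x : ℕ) : itP N (c + 1) x =
    Nat.rec (motive := fun _ => ℕ) 0 (fun p _ => itP N c (p + 1)) (x ^ 2 % N) := rfl

theorem itP_spec (N c : ℕ) : ∀ x, itP N c x ≡ x ^ 2 ^ c [MOD N] := by
  induction c with
  | zero => intro x; simp [itP, Nat.ModEq]
  | succ c ih =>
    intro x
    have e : x ^ 2 ^ (c + 1) = (x ^ 2) ^ 2 ^ c := by rw [← pow_mul, pow_succ']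
    have h1 : (x ^ 2 % N) ^ 2 ^ c ≡ x ^ 2 ^ (c + 1) [MOD N] := by
      rw [e]; exact (Nat.mod_modEq _ _).pow _
    rw [itP_succ]
    cases h : x ^ 2 % N with
    | zero =>
      rw [h, zero_pow (by positivity)] at h1
      exact h1
    | succ p =>
      rw [h] at h1
      exact (ih (p + 1)).trans h1

theorem rounds_succ (g : ℕ → ℕ) (c x : ℕ) : rounds g (c + 1) x =
    Nat.rec (motive := fun _ => ℕ) 0 (fun p _ => rounds g c (p + 1)) (g x) := rfl

theorem rounds_spec {N e : ℕ} {g : ℕ → ℕ} (hg : ∀ x, g x ≡ x ^ 2 ^ e [MOD N]) (c : ℕ) :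
    ∀ x, rounds g c x ≡ x ^ 2 ^ (e * c) [MOD N] := by
  induction c with
  | zero => intro x; simp [rounds, Nat.ModEq]
  | succ c ih =>
    intro x
    have h1 : (g x) ^ 2 ^ (e * c) ≡ x ^ 2 ^ (e * (c + 1)) [MOD N] := by
      refine ((hg x).pow _).trans ?_
      rw [← pow_mul, ← pow_add, show e + e * c = e * (c + 1) by ring]
    rw [rounds_succ]
    cases h : g x with
    | zero =>
      rw [h, zero_pow (by positivity)] at h1
      exact h1
    | succ p =>
      rw [h] at h1
      exact (ih (p + 1)).trans h1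

theorem sqm_spec (N x : ℕ) : sqm N x ≡ x ^ 2 ^ 1 [MOD N] := Nat.mod_modEq _ _

theorem comp_spec {N e d : ℕ} {g h : ℕ → ℕ} (hg : ∀ x, g x ≡ x ^ 2 ^ e [MOD N])
    (hh : ∀ x, h x ≡ x ^ 2 ^ d [MOD N]) (x : ℕ) : g (h x) ≡ x ^ 2 ^ (d + e) [MOD N] := by
  refine (hg _).trans (((hh x).pow _).trans ?_)
  rw [← pow_mul, ← pow_add]

theorem rep_spec {N e : ℕ} {g : ℕ → ℕ} (hg : ∀ x, g x ≡ x ^ 2 ^ e [MOD N]) (x : ℕ) :
    rep g x ≡ x ^ 2 ^ (8 * e) [MOD N] := by
  have h2 := comp_spec hg hg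
  have h4 := comp_spec (g := fun x => g (g x)) (h := fun x => g (g x)) h2 h2
  have h8 := comp_spec (g := fun x => g (g (g (g x)))) (h := fun x => g (g (g (g x)))) h4 h4 x
  rw [show 8 * e = e + e + (e + e) + (e + e + (e + e)) by ring]
  exact h8

theorem itQ_spec (N c x : ℕ) : itQ N c x ≡ x ^ 2 ^ c [MOD N] := by
  have h1 := rounds_spec (rep_spec (rep_spec (sqm_spec N)))
  have h2 := rounds_spec (h1 16)
  have h3 : itQ N c x = rounds (rounds (rep (rep (sqm N))) 16) (c / 1024)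
    (rounds (rep (rep (sqm N))) (c % 1024 / 64) (itP N (c % 64) x)) := rfl
  rw [h3]
  refine (h2 _ _).trans (((h1 _ _).trans ((itP_spec N _ x).pow _)).pow _ |>.trans ?_)
  rw [← pow_mul, ← pow_mul, ← pow_add, ← pow_add,
    show c % 64 + (8 * (8 * 1) * (c % 1024 / 64) + 8 * (8 * 1) * 16 * (c / 1024)) = c by omega]

theorem val0 (n k : ℕ) : val n (4 * k) = 2 ^ n - 2 ^ k - 1 := by
  have h1 : Nat.div (4 * k) 4 = k := by show 4 * k / 4 = k; omega
  have h2 : Nat.mod (4 * k) 4 = 0 := by show 4 * k % 4 = 0; omega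
  unfold val; rw [h1, h2]; rfl

theorem val1 (n k : ℕ) : val n (4 * k + 1) = 2 ^ n + 2 ^ k - 1 := by
  have h1 : Nat.div (4 * k + 1) 4 = k := by show (4 * k + 1) / 4 = k; omega
  have h2 : Nat.mod (4 * k + 1) 4 = 1 := by show (4 * k + 1) % 4 = 1; omega
  unfold val; rw [h1, h2]; rfl

theorem val2 (n k : ℕ) : val n (4 * k + 2) = 2 ^ n - 2 ^ k + 1 := by
  have h1 : Nat.div (4 * k + 2) 4 = k := by show (4 * k + 2) / 4 = k; omega
  have h2 : Nat.mod (4 * k + 2) 4 = 2 := by show (4 * k + 2) % 4 = 2; omega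
  unfold val; rw [h1, h2]; rfl

theorem val3 (n k : ℕ) : val n (4 * k + 3) = 2 ^ n + 2 ^ k + 1 := by
  have h1 : Nat.div (4 * k + 3) 4 = k := by show (4 * k + 3) / 4 = k; omega
  have h2 : Nat.mod (4 * k + 3) 4 = 3 := by show (4 * k + 3) % 4 = 3; omega
  unfold val; rw [h1, h2]; rfl

theorem fermat3 {N : ℕ} (hp : N.Prime) (h : 10 ≤ N) : 3 ^ (N - 1) ≡ 1 [MOD N] := by
  have hc : Nat.Coprime 3 N := (Nat.coprime_primes Nat.prime_three hp).2 (by omega)
  have := Nat.ModEq.pow_totient hc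
  rwa [Nat.totient_prime hp] at this

theorem fin_sound {n k f a b : ℕ} (hk : k < n) (hf : f < 4)
    (ha : a ≡ 3 ^ 2 ^ n [MOD val n (4 * k + f)]) (hb : b ≡ 3 ^ 2 ^ k [MOD val n (4 * k + f)])
    (h : fin (val n (4 * k + f)) f a b = true) : ¬ (val n (4 * k + f)).Prime := by
  intro hp
  unfold fin at h
  cases h1 : Nat.ble 10 (val n (4 * k + f)) with
  | false => simp [h1] at h
  | true =>
    have h10 : 10 ≤ val n (4 * k + f) := Nat.le_of_ble_eq_true h1
    have hF := fermat3 hp h10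
    have hlt : 2 ^ k < 2 ^ n := Nat.pow_lt_pow_right (by norm_num) hk
    have hk1 : 1 ≤ 2 ^ k := Nat.one_le_two_pow
    simp only [h1] at h
    obtain rfl | rfl | rfl | rfl : f = 0 ∨ f = 1 ∨ f = 2 ∨ f = 3 := by omega
    · have hv : val n (4 * k + 0) = 2 ^ n - 2 ^ k - 1 := val0 n k
      generalize val n (4 * k + 0) = N at *
      have e : 2 ^ n = (N - 1) + (2 + 2 ^ k) := by omega
      have h2 : a ≡ 9 * b [MOD N] := by
        refine ha.trans ?_
        rw [e, pow_add, pow_add]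
        have := hF.mul ((Nat.ModEq.refl (3 ^ 2)).mul hb.symm)
        simpa using this
      have h3 : Nat.beq (Nat.mod a N) (Nat.mod (Nat.mul 9 b) N) = true := Nat.beq_eq.mpr h2
      change (!Nat.beq (Nat.mod a N) (Nat.mod (Nat.mul 9 b) N)) = true at h
      rw [h3] at h; cases h
    · have hv : val n (4 * k + 1) = 2 ^ n + 2 ^ k - 1 := val1 n k
      generalize val n (4 * k + 1) = N at *
      have e : 2 ^ n + 2 ^ k = (N - 1) + 2 := by omega
      have h2 : a * b ≡ 9 [MOD N] := by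
        refine (ha.mul hb).trans ?_
        rw [← pow_add, e, pow_add]
        have := hF.mul (Nat.ModEq.refl (3 ^ 2))
        simpa using this
      have h3 : Nat.beq (Nat.mod (Nat.mul a b) N) 9 = true := by
        apply Nat.beq_eq.mpr
        have h4 : a * b % N = 9 % N := h2
        rw [Nat.mod_eq_of_lt (by omega : 9 < N)] at h4
        exact h4
      change (!Nat.beq (Nat.mod (Nat.mul a b) N) 9) = true at h
      rw [h3] at h; cases h
    · have hv : val n (4 * k + 2) = 2 ^ n - 2 ^ k + 1 := val2 n k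
      generalize val n (4 * k + 2) = N at *
      have e : 2 ^ n = (N - 1) + 2 ^ k := by omega
      have h2 : a ≡ b [MOD N] := by
        refine ha.trans ?_
        rw [e, pow_add]
        have := hF.mul hb.symm
        simpa using this
      have h3 : Nat.beq (Nat.mod a N) (Nat.mod b N) = true := Nat.beq_eq.mpr h2
      change (!Nat.beq (Nat.mod a N) (Nat.mod b N)) = true at h
      rw [h3] at h; cases h
    · have hv : val n (4 * k + 3) = 2 ^ n + 2 ^ k + 1 := val3 n k
      generalize val n (4 * k + 3) = N at *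
      have e : 2 ^ n + 2 ^ k = N - 1 := by omega
      have h2 : a * b ≡ 1 [MOD N] := by
        refine (ha.mul hb).trans ?_
        rw [← pow_add, e]
        exact hF
      have h3 : Nat.beq (Nat.mod (Nat.mul a b) N) 1 = true := by
        apply Nat.beq_eq.mpr
        have h4 : a * b % N = 1 % N := h2
        rw [Nat.mod_eq_of_lt (by omega : 1 < N)] at h4
        exact h4
      change (!Nat.beq (Nat.mod (Nat.mul a b) N) 1) = true at h
      rw [h3] at h; cases h

theorem fer_sound {n i : ℕ} (hi : i < 4 * n) (h : fer n i = true) : ¬ (val n i).Prime := by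
  have e : i = 4 * (i / 4) + i % 4 := by omega
  have hk : i / 4 < n := by omega
  have h' : fin (val n i) (i % 4) (itQ (val n i) (n - i / 4) (itQ (val n i) (i / 4) 3))
      (itQ (val n i) (i / 4) 3) = true := h
  have hb := itQ_spec (val n i) (i / 4) 3
  have ha : itQ (val n i) (n - i / 4) (itQ (val n i) (i / 4) 3) ≡ 3 ^ 2 ^ n [MOD val n i] := by
    refine (itQ_spec _ _ _).trans ((hb.pow _).trans ?_)
    rw [← pow_mul, ← pow_add, Nat.add_sub_cancel' hk.le]
  generalize itQ (val n i) (n - i / 4) (itQ (val n i) (i / 4) 3) = a at *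
  generalize itQ (val n i) (i / 4) 3 = b at *
  rw [e] at ha hb ⊢
  have e1 : (4 * (i / 4) + i % 4) / 4 = i / 4 := by omega
  rw [e1] at hb
  refine fin_sound hk (Nat.mod_lt _ (by norm_num)) ha hb ?_
  rw [← e]; exact h'

theorem chk_succ (n m i W : ℕ) (L : List ℕ) : chk n (m + 1) i W L =
    Bool.rec (Bool.rec false (chk n m (i + 1) (W >>> 64) L)
        (fac (val n i) (dv (Nat.land W 18446744073709551615))))
      (List.rec false (fun a L' _ => Bool.rec false (chk n m (i + 1) (W >>> 64) L') (Nat.beq a i)) L)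
      (Nat.beq (Nat.land W 18446744073709551615) 0) := rfl

theorem chk_sound (n m : ℕ) : ∀ lo W L, chk n m lo W L = true → AllF n L →
    ∀ i, lo ≤ i → i < lo + m → i < 4 * n → ¬ (val n i).Prime := by
  induction m with
  | zero => intro lo W L _ _ i h1 h2; omega
  | succ m ih =>
    intro lo W L h hL i h1 h2 h3
    rw [chk_succ] at h
    cases hc : Nat.beq (Nat.land W 18446744073709551615) 0 with
    | false =>
      simp only [hc] at h
      cases hf : fac (val n lo) (dv (Nat.land W 18446744073709551615)) with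
      | false => simp only [hf] at h; cases h
      | true =>
        simp only [hf] at h
        rcases Nat.eq_or_lt_of_le h1 with rfl | h4
        · exact fac_sound hf
        · exact ih _ _ _ h hL i h4 (by omega) h3
    | true =>
      simp only [hc] at h
      cases L with
      | nil => simp at h
      | cons a L' =>
        cases ha : Nat.beq a lo with
        | false => simp [ha] at h
        | true =>
          simp only [ha] at h
          have e : a = lo := Nat.eq_of_beq_eq_true ha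
          rcases Nat.eq_or_lt_of_le h1 with rfl | h4
          · exact fer_sound h3 (hL _ (by simp [e]))
          · exact ih _ _ _ h (fun j hj => hL j (List.mem_cons_of_mem _ hj)) i h4 (by omega) h3

theorem Seg.sound {n : ℕ} (h : Seg n 0 (4 * n)) (k : ℕ) (hk : k < n) :
    ¬ (2 ^ n + 2 ^ k + 1).Prime ∧ ¬ (2 ^ n + 2 ^ k - 1).Prime ∧
    ¬ (2 ^ n - 2 ^ k + 1).Prime ∧ ¬ (2 ^ n - 2 ^ k - 1).Prime := by
  have g : ∀ i, i < 4 * n → ¬ (val n i).Prime := fun i hi => by
    obtain ⟨lo, m, W, L, h1, h2, h3, h4⟩ := h i (Nat.zero_le _) hi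
    exact chk_sound n m lo W L h3 h4 i h1 h2 hi
  refine ⟨?_, ?_, ?_, ?_⟩
  · rw [← val3]; exact g _ (by omega)
  · rw [← val1]; exact g _ (by omega)
  · rw [← val2]; exact g _ (by omega)
  · rw [← val0]; exact g _ (by omega)

theorem Seg.soundInt {n : ℕ} (h : Seg n 0 (4 * n)) (k : ℕ) (hk : k < n) :
    ¬ Prime ((2 : ℤ) ^ n + 2 ^ k + 1) ∧ ¬ Prime ((2 : ℤ) ^ n + 2 ^ k - 1) ∧
    ¬ Prime ((2 : ℤ) ^ n - 2 ^ k + 1) ∧ ¬ Prime ((2 : ℤ) ^ n - 2 ^ k - 1) := by
  obtain ⟨h1, h2, h3, h4⟩ := h.sound k hk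
  have hlt : 2 ^ k < 2 ^ n := Nat.pow_lt_pow_right (by norm_num) hk
  have hk1 : 1 ≤ 2 ^ k := Nat.one_le_two_pow
  rw [Nat.prime_iff_prime_int] at h1 h2 h3 h4
  have c1 : ((2 ^ n : ℕ) : ℤ) = 2 ^ n := by push_cast; rfl
  have c2 : ((2 ^ k : ℕ) : ℤ) = 2 ^ k := by push_cast; rfl
  rw [← c1, ← c2]
  generalize 2 ^ n = A at *
  generalize 2 ^ k = B at *
  refine ⟨?_, ?_, ?_, ?_⟩
  · rwa [show ((A : ℤ) + B + 1) = ((A + B + 1 : ℕ) : ℤ) by omega]
  · rwa [show ((A : ℤ) + B - 1) = ((A + B - 1 : ℕ) : ℤ) by omega]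
  · rwa [show ((A : ℤ) - B + 1) = ((A - B + 1 : ℕ) : ℤ) by omega]
  · rwa [show ((A : ℤ) - B - 1) = ((A - B - 1 : ℕ) : ℤ) by omega]

end Pool.Agent.MP_e20151_nt
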